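import Pool.Agent.R882.HTF

/-!
# Iitaka's inequality for the images of smooth complete intersections in products of
projective lines

Let `V 0 ⇢ V 1 ⇢ ... ⇢ V k` be a tower (`LinesTower`, `Pool/Agent/R882/HL.lean`) of varieties of
dimension `n ≥ 1`, where `V k` is any uniruled variety, each `V i`, `i < k`, is a smooth complete
intersection, of any codimension `q`, of hypersurfaces of multidegrees `(d_{l,a})`, `l = 1, ..., q`,
in the product of the projective lines with the coordinates `x_a`, `a = 1, ..., n + q`, with
`Σ_l d_{l,a} = m_a + 2`, so that the canonical divisor of `V i` is `O(m_a)`, `m_a ≥ 0`, and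
`V (i + 1)` is birational to the image of `V i` under the projection which forgets one coordinate
`x_{a0}`. (If `V 0` is a smooth hypersurface then `k = 1` and `V 1` is a product of `n` projective
lines. A triangular system `F 1 (t, y 1) = 0`, ..., `F k (t, y 1, ..., y k) = 0`, where
`t = (t 1, ..., t n)`, gives a tower if the first `i` equations define a smooth complete intersection
for all `i`.) It is assumed that `s i ≤ m_a + 1` for all `a ≠ a0`, for the numbers `m_a` of `V i`,
where `s i = s / (b 0 ⋯ b (i - 1))` and `b i` is the degree of `V i` over `V (i + 1)`; nothing is
assumed about `m_{a0}`.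

Let `V 0 ⇢ W` be any dominant rational map of degree `r`; nothing is assumed about the map (it need
not be a quotient by a group, it may be ramified arbitrarily and has no relation to the tower) or about
`W`. Let `W ⇢ B` be any dominant rational map to a variety `B` with `κ(B) ≥ 0`, with generic fibre `F`
(fibres need not be connected; `B` may be a point or `B = W`).

The theorem: if the above holds for `s = r` and `K_F` is pseudo-effective then `p_g(W) > 0`, so
`κ(W) ≥ 0`. If the above holds for `s = 2 r` and `K_F` is pseudo-effective then `W` is of general type, so
`κ(W) = dim W ≥ κ(F) + κ(B)`. So Iitaka's inequality `κ(W) ≥ κ(F) + κ(B)` holds for all fibrations with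
total space `W`, in all dimensions, for example for `dim W = 7`, `dim B = 3`, `κ(F) = 0`; and if moreover
`κ(B) = 0` (the open case) then the condition for `s = r` suffices.

Proof: if `W` has geometric genus zero, or if `s = 2 r` and `W` is not of general type, then the map
`V 0 ⇢ W` factors through the maps of the tower, by the vanishing, or the coincidence on the general
fibres, of the traces to `W` of the canonical forms of the `V i`, so `W` is dominated by `V k` and it is
uniruled. But if `W` is uniruled then a nonzero pluricanonical form of the base `B`, pulled back to
`W`, is constant along the rational curves, so these are in the fibres of `W ⇢ B`, and `K_F` is not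
pseudo-effective.

`K` and `L` are the function fields of `V 0` and `W`, `E` is the function field of `B`, and `L` over `E`
is the function field of the generic fibre `F`, of dimension `f'`; `d = dim B`. `KappaGe` and
`IsPseudoEffective` are in `Pool/Agent/R882/HTF.lean`.
-/

set_option autoImplicit false
set_option linter.overlappingInstances false

open FF Module Pool.Agent.W602.GT
open Pool.Agent.W619.PQ (IsUniruled)
open Pool.Agent.R882.HT (GenusZero)
open Pool.Agent.R882.HL (LinesTower)
open Pool.Agent.R882.HTF (KappaGe IsPseudoEffective)

namespace Pool.Agent.Results.MP_a4b25d_ag.IitakaLinesTowers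

/-- **Iitaka's inequality for images of complete intersections in products of lines.** Let `K` be the
function field of the first variety `V` of a tower of smooth complete intersections of dimension
`n ≥ 1` in products of projective lines over a uniruled variety, and let `V ⇢ W` be a dominant
rational map of finite degree `r`, `L` the function field of `W`. Let `W ⇢ B` be a dominant rational map with `κ(B) ≥ 0`, `E` the
function field of `B`, `F` the generic fibre. If the tower has height at
least for `r` and `K_F` is pseudo-effective then
`p_g(W) > 0`. If it has height at least for `2 r` then `κ(W) = dim W` if `K_F` is pseudo-effective, and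
`κ(W) ≥ κ(F) + κ(B)`. -/
theorem result {n : ℕ} (hn : 1 ≤ n) {K : Type} [Field K] [Algebra ℂ K]
    [Algebra.EssFiniteType ℂ K] (hK : Algebra.trdeg ℂ K = (n : ℕ))
    (L : Type) [Field L] [Algebra ℂ L] [Algebra L K] [IsScalarTower ℂ L K]
    [FiniteDimensional L K] (E : IntermediateField ℂ L) [Algebra.EssFiniteType ℂ E] {d f' : ℕ}
    (hd : Algebra.trdeg ℂ E = d) (hf' : Algebra.trdeg E L = f') (hY : KappaGe ℂ E d 0) :
    (LinesTower n (fun E _ _ => IsUniruled ℂ E n) K (Module.finrank L K) → IsPseudoEffective E L f' →
      ¬ GenusZero L n ∧ KappaGe ℂ L n 0) ∧
    (LinesTower n (fun E _ _ => IsUniruled ℂ E n) K (2 * Module.finrank L K) →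
      (IsPseudoEffective E L f' → KappaGe ℂ L n n) ∧
      ∀ p q : ℕ, KappaGe ℂ E d p → KappaGe E L f' q → KappaGe ℂ L n (p + q)) :=
  have h := Pool.Agent.R882.HTF.lines_fib hn hK L E hd hf' hY
  ⟨h.1, fun hT => ⟨(h.2 hT).1, (h.2 hT).2.2⟩⟩

end Pool.Agent.Results.MP_a4b25d_ag.IitakaLinesTowers
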