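import Pool.Agent.R882.HTF

/-!
# Iitaka's inequality for the images of towers of nondegenerate complete intersections

A tower (`Tower`, `Pool/Agent/R882/HT.lean`) is a sequence of generically finite maps
`V 0 ⇢ V 1 ⇢ ... ⇢ V k` of varieties of dimension `n ≥ 1`, where `V k` is any uniruled variety and
each `V i`, `i < k`, is a component of the set of common zeros in a torus `(ℂ^*) ^ (n + q)` of a
system `f` of Laurent polynomials which is nondegenerate in the sense of Khovanskii, with arbitrary
Newton polytopes, and `V (i + 1)` is birational to the image of `V i` under monomials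
`t l = x ^ (w l)`, where `ℂ(V i) = ℂ(V (i + 1))(y)` for a monomial `y = x ^ v`. (Typical towers are
given by triangular systems `f 1 (t, y 1) = 0`, `f 2 (t, y 1, y 2) = 0`, ...,
`f k (t, y 1, ..., y k) = 0`; then `V k` is the torus.) Let `b i` be the degree of `V i` over
`V (i + 1)`. It is assumed that there are columns for `s i = s / (b 0 ⋯ b (i - 1))` in the Fine
interior of the Newton polytopes of `V i`: for each divisor `c < b i` of `b i` an `M` with
`s i ≤ c (M + 1)` such that the `u + j v` and the `u + j v + M w l` are in the Fine interior for all
`j < c`. (If `b i` is a prime number: `u` and the `u + (s i - 1) w l` are in the Fine interior.)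

Let `V 0 ⇢ W` be any dominant rational map of degree `r`; nothing is assumed about the map (it need
not be a quotient by a group, it may be ramified arbitrarily and has no relation to the tower) or about
`W`. Let `W ⇢ B` be any dominant rational map to a variety `B` with `κ(B) ≥ 0`, with generic fibre `F`
(fibres need not be connected; `B` may be a point or `B = W`).

The theorem: if there are columns for `s = r` and `K_F` is pseudo-effective then `p_g(W) > 0`, so
`κ(W) ≥ 0`. If there are columns for `s = 2 r` and `K_F` is pseudo-effective then `W` is of general type, so
`κ(W) = dim W ≥ κ(F) + κ(B)`. So Iitaka's inequality `κ(W) ≥ κ(F) + κ(B)` holds for all fibrations with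
total space `W`, in all dimensions, for example for `dim W = 7`, `dim B = 3`, `κ(F) = 0`; and if moreover
`κ(B) = 0` (the open case) then columns for `s = r` suffice.

Proof: if `W` has geometric genus zero, or if `s = 2 r` and `W` is not of general type, then the map
`V 0 ⇢ W` factors through the maps of the tower, by the vanishing, or the coincidence on the general
fibres, of the traces to `W` of the canonical forms of the `V i`, so `W` is dominated by `V k` and it is
uniruled. But if `W` is uniruled then a nonzero pluricanonical form of the base `B`, pulled back to
`W`, is constant along the rational curves, so these are in the fibres of `W ⇢ B`, and `K_F` is not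
pseudo-effective.

`K` and `L` are the function fields of `V 0` and `W`, `E` is the function field of `B`, and `L` over `E`
is the function field of the generic fibre `F`, of dimension `f'`; `d = dim B`. `KappaGe` and
`IsPseudoEffective` are in `Pool/Agent/R882/HTF.lean`.
-/

set_option autoImplicit false
set_option linter.overlappingInstances false

open FF Module Pool.Agent.W602.GT
open Pool.Agent.W619.PQ (IsUniruled)
open Pool.Agent.R882.HT (Tower GenusZero)
open Pool.Agent.R882.HTF (KappaGe IsPseudoEffective)

namespace Pool.Agent.Results.MP_a4b25d_ag.IitakaTowers

/-- **Iitaka's inequality for images of towers.** Let `K` be the function field of the first variety `V` of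
a tower of varieties of dimension `n ≥ 1` over a uniruled variety, and let `V ⇢ W` be a dominant
rational map of finite degree `r`, `L` the function field of `W`. Let `W ⇢ B` be a dominant rational map with `κ(B) ≥ 0`, `E` the
function field of `B`, `F` the generic fibre. If there are columns for `r` and `K_F` is pseudo-effective then
`p_g(W) > 0`. If there are columns for `2 r` then `κ(W) = dim W` if `K_F` is pseudo-effective, and
`κ(W) ≥ κ(F) + κ(B)`. -/
theorem result {n : ℕ} (hn : 1 ≤ n) {K : Type} [Field K] [Algebra ℂ K]
    [Algebra.EssFiniteType ℂ K] (hK : Algebra.trdeg ℂ K = (n : ℕ))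
    (L : Type) [Field L] [Algebra ℂ L] [Algebra L K] [IsScalarTower ℂ L K]
    [FiniteDimensional L K] (E : IntermediateField ℂ L) [Algebra.EssFiniteType ℂ E] {d f' : ℕ}
    (hd : Algebra.trdeg ℂ E = d) (hf' : Algebra.trdeg E L = f') (hY : KappaGe ℂ E d 0) :
    (Tower n (fun E _ _ => IsUniruled ℂ E n) K (Module.finrank L K) → IsPseudoEffective E L f' →
      ¬ GenusZero L n ∧ KappaGe ℂ L n 0) ∧
    (Tower n (fun E _ _ => IsUniruled ℂ E n) K (2 * Module.finrank L K) →
      (IsPseudoEffective E L f' → KappaGe ℂ L n n) ∧
      ∀ p q : ℕ, KappaGe ℂ E d p → KappaGe E L f' q → KappaGe ℂ L n (p + q)) :=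
  have h := Pool.Agent.R882.HTF.tower_fib hn hK L E hd hf' hY
  ⟨h.1, fun hT => ⟨(h.2 hT).1, (h.2 hT).2.2⟩⟩

end Pool.Agent.Results.MP_a4b25d_ag.IitakaTowers
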